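import Mathlib
import Pool.Agent.Lib.MP_7f7674_al.Dep

/-!
Being asynchronously automatic depends on the finite generating set.
-/

set_option autoImplicit false

open Pool.Agent.Lib.MP_7f7674_al

namespace Pool.Agent.Results.MP_7f7674_al.AsyncDependsOnGenerators

theorem result : ∃ (S : Type) (_ : Semigroup S) (g : Fin 3 → S), Function.Injective g ∧
    (∃ L : Set (FreeMonoid (Fin 3)), QuasiAutStruct g L) ∧
    (∀ L : Set (FreeMonoid (Fin 3)), ¬AsyncAutStruct g L) ∧
    ∃ (B : Finset S) (L' : Set (FreeMonoid B)), AsyncAutStruct (fun b : B => (b : S)) L' := by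
  obtain ⟨C, h1, h2, h3, h4, h5⟩ := exists_normal_forms quasi_dG
  exact ⟨dS, inferInstance, dG, dG_inj, ⟨_, quasi_dG⟩, not_async_dG,
    async_of_normal_forms h1 h2 h3 h4 h5⟩

end Pool.Agent.Results.MP_7f7674_al.AsyncDependsOnGenerators
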