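import Mathlib
import Pool.Agent.Lib.MP_7f7674_al.Main

/-!
Every quasi-automatic semigroup is asynchronously automatic.
-/

set_option autoImplicit false

open Pool.Agent.Lib.MP_7f7674_al

namespace Pool.Agent.Results.MP_7f7674_al.QuasiIsAsync

theorem result (S : Type*) [Semigroup S] (A : Type*) [Finite A] (g : A → S)
    (L : Set (FreeMonoid A)) (h : QuasiAutStruct g L) :
    ∃ (B : Finset S) (L' : Set (FreeMonoid B)), AsyncAutStruct (fun b : B => (b : S)) L' := by
  obtain ⟨C, h1, h2, h3, h4, h5⟩ := exists_normal_forms h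
  exact async_of_normal_forms h1 h2 h3 h4 h5

end Pool.Agent.Results.MP_7f7674_al.QuasiIsAsync
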